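import Pool.Agent.Helper82.Min.Defs
import Pool.Agent.Helper82.Min.Conv
import Pool.Agent.Helper45.MS.Main
import Pool.Agent.Helper45.MS.One

/-!
# Minimal surfaces of finite area and groups of critical exponent at most one

The other definitions used in the statement are in `Pool/Agent/Helper82/Min/Defs.lean`.
-/

namespace Pool.Agent.Helper45.MS.Draft

open Pool.Agent.Helper82 Pool.Agent.Helper82.Min

/-- `P` is a totally geodesic plane of hyperbolic space: the part in upper half-space of a
Euclidean plane or sphere orthogonal to the boundary plane `t = 0`. -/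
def IsGeodesicPlane (P : Set Min.E3) : Prop :=
  ∃ A B C D : ℝ, 0 < B ^ 2 + C ^ 2 - 4 * A * D ∧
    P = {q | Up q ∧ A * ‖q‖ ^ 2 + B * q 0 + C * q 1 + D = 0}

/-- Let `Γ` be a discrete torsion-free group of isometries of hyperbolic 3-space of critical
exponent at most one: the Poincare series `∑ cosh (dist (p, γ p)) ^ (-s)` converges for every
`s > 1`. Then a set `S` in `H³/Γ` is a properly embedded minimal surface of finite area if and only
if its preimage is a totally geodesic plane, its area is finite, and the Poincare series diverges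
at `s = 1`. -/
theorem result (Γ : Grp) (hΓ : ∀ γ ∈ Γ, IsIsom γ) (hd : Min.IsDiscrete Γ)
    (ht : Min.IsTorsionFree Γ) (p : Min.H3)
    (hp : ∀ s : ℝ, 1 < s → Summable fun γ : Γ => Min.displ γ.1 p ^ (-s))
    (S : Set (Min.Mfd Γ)) :
    (Min.IsMinimalSurface Γ S ∧ Min.area Γ S < ⊤) ↔
      (IsGeodesicPlane (Min.lift Γ S) ∧ Min.area Γ S < ⊤ ∧
        ¬ Summable fun γ : Γ => Min.displ γ.1 p ^ (-1 : ℝ)) := by
  have hPL : ∀ (A B C D : ℝ) (L : Set Helper82.H3),
      Subtype.val '' L = {q : Min.E3 | Up q ∧ A * ‖q‖ ^ 2 + B * q 0 + C * q 1 + D = 0} ↔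
        L = Helper45.MS.PL A B C D := by
    intro A B C D L
    constructor
    · intro h
      ext q
      have h1 : q.1 ∈ Subtype.val '' L ↔ q ∈ L := Subtype.val_injective.mem_set_image
      rw [← h1, h]
      exact ⟨fun h2 => h2.2, fun h2 => ⟨q.2, h2⟩⟩
    · rintro rfl
      ext x
      constructor
      · rintro ⟨q, hq, rfl⟩
        exact ⟨q.2, hq⟩
      · rintro ⟨h1, h2⟩
        exact ⟨⟨x, h1⟩, h2, rfl⟩
  constructor
  · rintro ⟨h1, h2⟩
    have h3 := h2
    rw [area_eq _ h1.2.1] at h3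
    have h4 := (isMinimalSurface_iff _ S).1 h1
    refine ⟨?_, h2, ?_⟩
    · obtain ⟨A, B, C, D, hK, hL⟩ := Helper45.MS.main hΓ hd ht p hp h4 h3
      refine ⟨A, B, C, D, hK, ?_⟩
      rw [lift_eq]
      exact (hPL A B C D _).2 hL
    · intro hsum
      unfold Helper82.area at h3
      simp only [iInf_lt_iff] at h3
      obtain ⟨D, hD, hcov, hfin⟩ := h3
      obtain ⟨x, hx⟩ := h4.nonempty
      obtain ⟨q, rfl⟩ := Quotient.exists_rep x
      exact Helper45.MS.not_summable_one hΓ hd ht h4.isMinimalIn ⟨q, hx⟩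
        (fun γ hγ q => mem_lift_smul hγ q) hD hcov hfin
        (Helper45.MS.summable_bs_oo_of hΓ zero_le_one p hsum)
  · rintro ⟨⟨A, B, C, D, hK, hL⟩, h2, -⟩
    rw [lift_eq, hPL] at hL
    exact ⟨(isMinimalSurface_iff _ S).2 (Helper45.MS.isMinimalSurface_of_lift_eq_PL hK hL), h2⟩

end Pool.Agent.Helper45.MS.Draft
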